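import Mathlib

namespace Pool.Agent.Results.MP_14f59b_co.Counter

def pw : Fin 14 → ℕ := ![1, 29, 2, 28, 3, 27, 7, 23, 8, 22, 12, 18, 13, 17]
def s5 : Fin 14 → Fin 5 := ![3, 0, 1, 1, 4, 2, 2, 3, 2, 4, 1, 3, 0, 4]
def s6 : Fin 14 → Fin 6 := ![0, 0, 0, 1, 0, 2, 1, 3, 2, 4, 3, 5, 4, 5]
def s7 : Fin 14 → Fin 7 := ![0, 0, 1, 1, 2, 2, 3, 3, 4, 4, 5, 5, 6, 6]

def g (t : Fin 14) : (Fin 5 ≃ Fin 5) × (Fin 6 ≃ Fin 6) × (Fin 7 ≃ Fin 7) :=
  (Equiv.addRight (s5 t), Equiv.addRight (s6 t), Equiv.addRight (s7 t))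

theorem g_inj : Function.Injective g := by
  have h : ∀ t u, s5 t = s5 u → s6 t = s6 u → s7 t = s7 u → t = u := by decide +kernel
  intro t u htu
  apply h
  · simpa [g] using congrArg (fun b => b.1 0) htu
  · simpa [g] using congrArg (fun b => b.2.1 0) htu
  · simpa [g] using congrArg (fun b => b.2.2 0) htu

theorem result : ∃ (S : Finset ((Fin 5 ≃ Fin 5) × (Fin 6 ≃ Fin 6) × (Fin 7 ≃ Fin 7)))
    (w : (Fin 5 ≃ Fin 5) × (Fin 6 ≃ Fin 6) × (Fin 7 ≃ Fin 7) → ℕ),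
    S.card = 14 ∧ (∀ b ∈ S, 0 < w b) ∧
    (∀ p c c', ∑ b ∈ S with b.1 p = c, w b = ∑ b ∈ S with b.1 p = c', w b) ∧
    (∀ p c c', ∑ b ∈ S with b.2.1 p = c, w b = ∑ b ∈ S with b.2.1 p = c', w b) ∧
    (∀ p c c', ∑ b ∈ S with b.2.2 p = c, w b = ∑ b ∈ S with b.2.2 p = c', w b) := by
  have hw : ∀ t, Function.extend g pw 0 (g t) = pw t := fun t => g_inj.extend_apply _ _ t
  refine ⟨Finset.univ.map ⟨g, g_inj⟩, Function.extend g pw 0, by simp, ?_, ?_, ?_, ?_⟩
  · intro b hb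
    obtain ⟨t, -, rfl⟩ := Finset.mem_map.mp hb
    have : ∀ t, 0 < pw t := by decide +kernel
    simpa [hw] using this t
  · have h : ∀ p c : Fin 5, ∑ t, (if p + s5 t = c then pw t else 0) = 42 := by decide +kernel
    intro p c c'
    simp only [Finset.sum_filter, Finset.sum_map, Function.Embedding.coeFn_mk, hw]
    exact (h p c).trans (h p c').symm
  · have h : ∀ p c : Fin 6, ∑ t, (if p + s6 t = c then pw t else 0) = 35 := by decide +kernel
    intro p c c'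
    simp only [Finset.sum_filter, Finset.sum_map, Function.Embedding.coeFn_mk, hw]
    exact (h p c).trans (h p c').symm
  · have h : ∀ p c : Fin 7, ∑ t, (if p + s7 t = c then pw t else 0) = 30 := by decide +kernel
    intro p c c'
    simp only [Finset.sum_filter, Finset.sum_map, Function.Embedding.coeFn_mk, hw]
    exact (h p c).trans (h p c').symm

end Pool.Agent.Results.MP_14f59b_co.Counter
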